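import Pool.Agent.Q64.ZO.Stm

/-! Project ZO (helper64), job A: the covering criterion gives interior points near every map. -/

set_option autoImplicit false

open Filter Topology Set Metric
open scoped NNReal

namespace Pool.Agent.Q64.ZO

universe u

namespace A

lemma ne_le {X : Type u} [NormedAddCommGroup X] {C : Set X} (h : NE C) (x y : C) :
    ‖(h.1 x : X) - h.1 y‖ ≤ ‖(x : X) - y‖ := by
  have := h.2.dist_le_mul x y
  rw [Subtype.dist_eq, Subtype.dist_eq, dist_eq_norm, dist_eq_norm, NNReal.coe_one,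
    one_mul] at this
  exact this

lemma push {X : Type u} [NormedAddCommGroup X] [NormedSpace ℝ X] {C : Set X}
    (hC : Convex ℝ C) (q : C) (R d : ℝ) (Z : Finset C) (hR : 0 < R) (hd : 0 < d)
    (hZ : ∀ x : C, ‖(x : X) - q‖ ≤ R → ∃ z ∈ Z, ‖(x : X) - z‖ ≤ R - d)
    (p : X) (t : ℝ) (ht0 : 0 < t) (ht1 : t ≤ 1) (p' : X) (hp' : p' = (1 - t) • p + t • (q : X))
    (x : C) (hx : ‖p' - q‖ + R + 4 * R * ‖p' - q‖ / d ≤ ‖(x : X) - p'‖) :
    ∃ z ∈ Z, ‖(x : X) - ((1 - t) • p + t • (z : X))‖ ≤ ‖(x : X) - p'‖ - t * d / 2 := by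
  obtain ⟨r, hr⟩ : ∃ r, r = ‖(x : X) - q‖ := ⟨_, rfl⟩
  obtain ⟨a, ha⟩ : ∃ a, a = ‖p' - q‖ := ⟨_, rfl⟩
  obtain ⟨r', hr'⟩ : ∃ r', r' = ‖(x : X) - p'‖ := ⟨_, rfl⟩
  rw [← ha, ← hr'] at hx
  have ha0 : 0 ≤ a := by
    rw [ha]
    exact norm_nonneg _
  have h1 : r' ≤ r + a := by
    rw [hr, ha, hr', show (x : X) - p' = ((x : X) - q) - (p' - q) by abel]
    exact norm_sub_le _ _
  have h1' : r ≤ r' + a := by
    rw [hr, ha, hr', show (x : X) - q = ((x : X) - p') + (p' - q) by abel]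
    exact norm_add_le _ _
  have h3 : 0 ≤ 4 * R * a / d := by positivity
  have hRr : R ≤ r := by linarith
  have hr0 : 0 < r := hR.trans_le hRr
  have h4 : 4 * R * a ≤ d * r := by
    have : 4 * R * a / d ≤ r := by linarith
    rw [div_le_iff₀ hd] at this
    linarith
  have hRr1 : R / r ≤ 1 := (div_le_one hr0).2 hRr
  have hRr0 : 0 ≤ R / r := by positivity
  have hy : (q : X) + (R / r) • ((x : X) - q) ∈ C :=
    hC.add_smul_sub_mem q.2 x.2 ⟨hRr0, hRr1⟩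
  obtain ⟨z, hz, hz1⟩ := hZ ⟨_, hy⟩ (by
    show ‖(q : X) + (R / r) • ((x : X) - q) - q‖ ≤ R
    rw [add_sub_cancel_left, norm_smul, Real.norm_of_nonneg hRr0, ← hr,
      div_mul_cancel₀ _ hr0.ne'])
  refine ⟨z, hz, ?_⟩
  change ‖(q : X) + (R / r) • ((x : X) - q) - z‖ ≤ R - d at hz1
  obtain ⟨s, hs⟩ : ∃ s, s = t * R / r := ⟨_, rfl⟩
  have hs0 : 0 ≤ s := by
    rw [hs]
    positivity
  have hsr : s * r = t * R := by
    rw [hs, div_mul_cancel₀ _ hr0.ne']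
  have hs1 : s ≤ 1 := by
    rw [hs, mul_div_assoc]
    calc t * (R / r) ≤ 1 * 1 := mul_le_mul ht1 hRr1 hRr0 zero_le_one
      _ = 1 := one_mul 1
  have hsa : s * (4 * a) ≤ t * d := by
    rw [hs, div_mul_eq_mul_div, div_le_iff₀ hr0]
    have := mul_le_mul_of_nonneg_left h4 ht0.le
    linarith
  have e1 : (x : X) - ((1 - t) • p + t • (z : X)) =
      (1 - s) • ((x : X) - p') + s • ((q : X) - p') +
        t • ((q : X) + (R / r) • ((x : X) - q) - z) := by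
    have e2 : (1 - t) • p = p' - t • (q : X) := by
      rw [hp']
      abel
    rw [e2, show s = t * (R / r) by rw [hs, mul_div_assoc]]
    module
  rw [e1]
  have n1 : ‖(1 - s) • ((x : X) - p')‖ = (1 - s) * r' := by
    rw [norm_smul, Real.norm_of_nonneg (by linarith), hr']
  have n2 : ‖s • ((q : X) - p')‖ = s * a := by
    rw [norm_smul, Real.norm_of_nonneg hs0, ha, norm_sub_rev]
  have n3 : ‖t • ((q : X) + (R / r) • ((x : X) - q) - z)‖ ≤ t * (R - d) := by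
    rw [norm_smul, Real.norm_of_nonneg ht0.le]
    exact mul_le_mul_of_nonneg_left hz1 ht0.le
  have n4 := norm_add₃_le (a := (1 - s) • ((x : X) - p')) (b := s • ((q : X) - p'))
    (c := t • ((q : X) + (R / r) • ((x : X) - q) - z))
  rw [n1, n2] at n4
  rw [← hr']
  have n5 : s * (r - r' + a) ≤ s * (2 * a) := mul_le_mul_of_nonneg_left (by linarith) hs0
  nlinarith

end A

open A in
theorem t_A (base : S_BASE.{u}) (fix : S_FIX.{u}) (hrad : S_RAD.{u}) : S_A.{u} := by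
  intro X _ _ _ C hCc hCv q R d Z hR hd hZ
  classical
  obtain ⟨b1, -, b3⟩ := base X C
  apply b3
  intro f Y ε hε
  obtain ⟨f1, k, p, hf1, -, -, hp⟩ := fix X C hCc hCv ⟨q, q.2⟩ f Y (ε / 2) (by positivity)
  obtain ⟨σ, hσ⟩ : ∃ σ, σ = ε / 8 := ⟨_, rfl⟩
  have hσ0 : 0 < σ := by
    rw [hσ]
    positivity
  obtain ⟨r1, r2, r3, -, r5⟩ := hrad X (p : X) σ hσ0
  obtain ⟨M, hM0, hM1, hM2, hM3⟩ : ∃ M : ℝ, 0 < M ∧ (∀ y ∈ Y, ‖(q : X) - f1.1 y‖ ≤ M) ∧
      ‖(q : X) - p‖ ≤ M ∧ ∀ z ∈ Z, ‖(z : X) - p‖ ≤ M := by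
    have s1 : 0 ≤ ∑ y ∈ Y, ‖(q : X) - f1.1 y‖ := Finset.sum_nonneg fun _ _ => norm_nonneg _
    have s2 : 0 ≤ ∑ z ∈ Z, ‖(z : X) - p‖ := Finset.sum_nonneg fun _ _ => norm_nonneg _
    have s3 : 0 ≤ ‖(q : X) - p‖ := norm_nonneg _
    refine ⟨1 + ∑ y ∈ Y, ‖(q : X) - f1.1 y‖ + ‖(q : X) - p‖ + ∑ z ∈ Z, ‖(z : X) - p‖,
      by linarith, fun y hy => ?_, by linarith, fun z hz => ?_⟩
    · have := Finset.single_le_sum (f := fun y : C => ‖(q : X) - f1.1 y‖)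
        (fun _ _ => norm_nonneg _) hy
      linarith
    · have := Finset.single_le_sum (f := fun z : C => ‖(z : X) - p‖)
        (fun _ _ => norm_nonneg _) hz
      linarith
  obtain ⟨t, ht0, ht1, htM⟩ : ∃ t : ℝ, 0 < t ∧ t ≤ 1 ∧ t * M ≤ σ :=
    ⟨min 1 (σ / M), lt_min one_pos (by positivity), min_le_left _ _,
      (le_div_iff₀ hM0).1 (min_le_right _ _)⟩
  have ht1' : 0 ≤ 1 - t := by linarith
  -- the map
  obtain ⟨g, hg⟩ : ∃ g : NE C, ∀ (x : C) (hx : rad (p : X) σ x ∈ C),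
      (g.1 x : X) = (1 - t) • (f1.1 ⟨rad (p : X) σ x, hx⟩ : X) + t • (q : X) := by
    have hmem : ∀ x : C, rad (p : X) σ x ∈ C := fun x => r5 C hCv p.2 x x.2
    refine ⟨⟨fun x => ⟨(1 - t) • (f1.1 ⟨rad (p : X) σ x, hmem x⟩ : X) + t • (q : X),
      hCv (f1.1 _).2 q.2 ht1' ht0.le (by ring)⟩, ?_⟩, fun x hx => rfl⟩
    apply LipschitzWith.of_dist_le_mul
    intro x y
    rw [Subtype.dist_eq, Subtype.dist_eq, dist_eq_norm, dist_eq_norm, NNReal.coe_one, one_mul]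
    show ‖((1 - t) • (f1.1 ⟨rad (p : X) σ x, hmem x⟩ : X) + t • (q : X)) -
      ((1 - t) • (f1.1 ⟨rad (p : X) σ y, hmem y⟩ : X) + t • (q : X))‖ ≤ ‖(x : X) - y‖
    rw [add_sub_add_right_eq_sub, ← smul_sub, norm_smul, Real.norm_of_nonneg ht1']
    have u1 := ne_le f1 ⟨rad (p : X) σ x, hmem x⟩ ⟨rad (p : X) σ y, hmem y⟩
    have u2 : ‖rad (p : X) σ x - rad (p : X) σ y‖ ≤ ‖(x : X) - y‖ := by
      have := r1.dist_le_mul (x : X) y
      rwa [dist_eq_norm, dist_eq_norm, NNReal.coe_one, one_mul] at this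
    calc (1 - t) * ‖(f1.1 ⟨rad (p : X) σ x, hmem x⟩ : X) - f1.1 ⟨rad (p : X) σ y, hmem y⟩‖
        ≤ 1 * ‖(x : X) - y‖ :=
          mul_le_mul (by linarith) (u1.trans u2) (norm_nonneg _) zero_le_one
      _ = ‖(x : X) - y‖ := one_mul _
  have hmem : ∀ x : C, rad (p : X) σ x ∈ C := fun x => r5 C hCv p.2 x x.2
  obtain ⟨p', hp'⟩ : ∃ p' : X, p' = (1 - t) • (p : X) + t • (q : X) := ⟨_, rfl⟩
  have hp'C : p' ∈ C := by
    rw [hp']
    exact hCv p.2 q.2 ht1' ht0.le (by ring)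
  have hzC : ∀ z : C, (1 - t) • (p : X) + t • (z : X) ∈ C := fun z =>
    hCv p.2 z.2 ht1' ht0.le (by ring)
  -- the value of g near p
  have hval : ∀ x : C, ‖(x : X) - p‖ ≤ σ → (g.1 x : X) = p' := by
    intro x hx
    have e1 : (⟨rad (p : X) σ x, hmem x⟩ : C) = p := Subtype.ext (r3 x hx)
    rw [hg x (hmem x), e1, hp, hp']
  have hclose : ∀ z : C, ‖(z : X) - p‖ ≤ M →
      ‖((1 - t) • (p : X) + t • (z : X)) - p‖ ≤ σ := by
    intro z hz
    have e1 : ((1 - t) • (p : X) + t • (z : X)) - p = t • ((z : X) - p) := by module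
    rw [e1, norm_smul, Real.norm_of_nonneg ht0.le]
    exact (mul_le_mul_of_nonneg_left hz ht0.le).trans htM
  have hgp' : (g.1 ⟨p', hp'C⟩ : X) = p' := hval _ (by
    show ‖p' - p‖ ≤ σ
    rw [hp']
    exact hclose q hM2)
  have hgz' : ∀ z ∈ Z, (g.1 ⟨_, hzC z⟩ : X) = p' := fun z hz => hval _ (hclose z (hM3 z hz))
  obtain ⟨R', hR'⟩ : ∃ R', R' = ‖p' - q‖ + R + 4 * R * ‖p' - q‖ / d := ⟨_, rfl⟩
  have hR'0 : 0 < R' := by
    rw [hR']
    positivity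
  have htd : 0 < t * d / 2 := by positivity
  refine ⟨g, ?_, ?_⟩
  · rw [mem_interior]
    refine ⟨Nb C g (insert ⟨p', hp'C⟩ (Z.image fun z => ⟨_, hzC z⟩)) (t * d / 2), ?_, b1 _ _ _,
      fun y _ => by rw [sub_self, norm_zero]; exact htd⟩
    intro h hh
    have k1 : ‖(h.1 ⟨p', hp'C⟩ : X) - p'‖ < t * d / 2 := by
      have := hh ⟨p', hp'C⟩ (Finset.mem_insert_self _ _)
      rwa [hgp'] at this
    have k2 : ∀ z ∈ Z, ‖(h.1 ⟨_, hzC z⟩ : X) - p'‖ < t * d / 2 := by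
      intro z hz
      have := hh ⟨_, hzC z⟩ (Finset.mem_insert_of_mem (Finset.mem_image_of_mem _ hz))
      rwa [hgz' z hz] at this
    refine ⟨C ∩ closedBall p' (R' + t * d), ⟨p', hp'C, ?_⟩, inter_subset_left,
      hCc.inter isClosed_closedBall, hCv.inter (convex_closedBall _ _),
      isBounded_closedBall.subset inter_subset_right, ?_⟩
    · exact mem_closedBall_self (by positivity)
    · rintro x ⟨-, hx⟩
      refine ⟨(h.1 x).2, ?_⟩
      rw [mem_closedBall, dist_eq_norm] at hx ⊢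
      rcases le_or_gt R' ‖(x : X) - p'‖ with hle | hlt
      · obtain ⟨z, hz, hz1⟩ := push hCv q R d Z hR hd hZ (p : X) t ht0 ht1 p' hp' x
          (by rw [← hR']; exact hle)
        have v1 := ne_le h x ⟨_, hzC z⟩
        have v2 : ‖(h.1 x : X) - p'‖ ≤ ‖(h.1 x : X) - h.1 ⟨_, hzC z⟩‖ +
            ‖(h.1 ⟨_, hzC z⟩ : X) - p'‖ := by
          rw [show (h.1 x : X) - p' = ((h.1 x : X) - h.1 ⟨_, hzC z⟩) +
            ((h.1 ⟨_, hzC z⟩ : X) - p') by abel]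
          exact norm_add_le _ _
        have v3 := (k2 z hz).le
        have v4 : ‖(h.1 x : X) - h.1 ⟨_, hzC z⟩‖ ≤ ‖(x : X) - p'‖ - t * d / 2 := v1.trans hz1
        linarith
      · have v1 := ne_le h x ⟨p', hp'C⟩
        have v2 : ‖(h.1 x : X) - p'‖ ≤ ‖(h.1 x : X) - h.1 ⟨p', hp'C⟩‖ +
            ‖(h.1 ⟨p', hp'C⟩ : X) - p'‖ := by
          rw [show (h.1 x : X) - p' = ((h.1 x : X) - h.1 ⟨p', hp'C⟩) +
            ((h.1 ⟨p', hp'C⟩ : X) - p') by abel]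
          exact norm_add_le _ _
        have v4 : ‖(h.1 x : X) - h.1 ⟨p', hp'C⟩‖ ≤ ‖(x : X) - p'‖ := v1
        linarith
  · intro y hy
    have w1 : ‖(f1.1 y : X) - f.1 y‖ < ε / 2 := hf1 y hy
    have w2 : ‖(g.1 y : X) - f1.1 y‖ ≤ σ + σ := by
      rw [hg y (hmem y), show (1 - t) • (f1.1 ⟨rad (p : X) σ y, hmem y⟩ : X) + t • (q : X) -
        f1.1 y = (1 - t) • ((f1.1 ⟨rad (p : X) σ y, hmem y⟩ : X) - f1.1 y) +
        t • ((q : X) - f1.1 y) by module]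
      refine (norm_add_le _ _).trans (add_le_add ?_ ?_)
      · rw [norm_smul, Real.norm_of_nonneg ht1']
        have u1 := ne_le f1 ⟨rad (p : X) σ y, hmem y⟩ y
        have u2 := r2 (y : X)
        calc (1 - t) * ‖(f1.1 ⟨rad (p : X) σ y, hmem y⟩ : X) - f1.1 y‖ ≤ 1 * σ :=
              mul_le_mul (by linarith) (u1.trans u2) (norm_nonneg _) zero_le_one
          _ = σ := one_mul _
      · rw [norm_smul, Real.norm_of_nonneg ht0.le]
        exact (mul_le_mul_of_nonneg_left (hM1 y hy) ht0.le).trans htM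
    have w3 : ‖(g.1 y : X) - f.1 y‖ ≤ ‖(g.1 y : X) - f1.1 y‖ + ‖(f1.1 y : X) - f.1 y‖ := by
      rw [show (g.1 y : X) - f.1 y = ((g.1 y : X) - f1.1 y) + ((f1.1 y : X) - f.1 y) by abel]
      exact norm_add_le _ _
    rw [hσ] at w2
    linarith

end Pool.Agent.Q64.ZO
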