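import Pool.Agent.Q64.ZO.Stm

/-!
# Project ZO: small copies of an open trap near every map
-/

set_option autoImplicit false

open Filter Topology Set Metric
open scoped NNReal

namespace Pool.Agent.Q64.ZO

universe u

namespace B

variable {X : Type u} [NormedAddCommGroup X] [NormedSpace ℝ X]

/-- a map of the whole space, as a map of `X` -/
def toX (f : NE (univ : Set X)) : X → X := fun x => (f.1 ⟨x, mem_univ x⟩ : X)

/-- a map of `X`, as a map of the whole space -/
def ofX (g : X → X) (hg : LipschitzWith 1 g) : NE (univ : Set X) :=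
  ⟨fun x => ⟨g x, mem_univ _⟩, by
    refine LipschitzWith.of_dist_le_mul ?_
    intro x y
    exact hg.dist_le_mul (x : X) (y : X)⟩

omit [NormedSpace ℝ X] in
theorem toX_lip (f : NE (univ : Set X)) (k : ℝ≥0) (hf : LipschitzWith k f.1) :
    LipschitzWith k (toX f) := by
  refine LipschitzWith.of_dist_le_mul ?_
  intro x y
  exact hf.dist_le_mul (⟨x, mem_univ x⟩ : (univ : Set X)) ⟨y, mem_univ y⟩

theorem scaled_lip (h : X → X) (hh : LipschitzWith 1 h) (p : X) (t : ℝ) (ht : 0 < t) :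
    LipschitzWith 1 (fun y => t⁻¹ • (h (p + t • y) - p)) := by
  refine LipschitzWith.of_dist_le_mul ?_
  intro x y
  have h1 := hh.dist_le_mul (p + t • x) (p + t • y)
  rw [dist_eq_norm, dist_eq_norm] at h1
  rw [dist_eq_norm, dist_eq_norm]
  have e1 : t⁻¹ • (h (p + t • x) - p) - t⁻¹ • (h (p + t • y) - p) =
      t⁻¹ • (h (p + t • x) - h (p + t • y)) := by
    rw [← smul_sub]; congr 1; abel
  have e2 : p + t • x - (p + t • y) = t • (x - y) := by
    rw [smul_sub]; abel
  rw [e1, norm_smul, norm_inv, Real.norm_of_nonneg ht.le]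
  rw [e2, norm_smul, Real.norm_of_nonneg ht.le] at h1
  simp only [NNReal.coe_one, one_mul] at h1 ⊢
  rw [inv_mul_le_iff₀ ht]
  exact h1

omit [NormedSpace ℝ X] in
theorem bound (Y : Finset (univ : Set X)) : ∃ r : ℝ, 0 < r ∧ ∀ x ∈ Y, ‖(x : X)‖ ≤ r := by
  refine ⟨1 + ∑ x ∈ Y, ‖(x : X)‖, ?_, ?_⟩
  · have : 0 ≤ ∑ x ∈ Y, ‖(x : X)‖ := Finset.sum_nonneg (fun _ _ => norm_nonneg _)
    linarith
  · intro x hx
    have : ‖(x : X)‖ ≤ ∑ x ∈ Y, ‖(x : X)‖ :=
      Finset.single_le_sum (f := fun x : (univ : Set X) => ‖(x : X)‖) (fun _ _ => norm_nonneg _) hx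
    linarith

/-- the orbits of `h` and of its scaled copy -/
theorem iter (h : NE (univ : Set X)) (p : X) (t : ℝ) (ht : 0 < t) (k : ℕ) :
    ((h.1^[k] ⟨p, mem_univ p⟩ : (univ : Set X)) : X) =
      p + t • (((ofX (fun y => t⁻¹ • (toX h (p + t • y) - p))
        (scaled_lip _ (toX_lip h 1 h.2) p t ht)).1^[k] ⟨0, mem_univ 0⟩ : (univ : Set X)) : X) := by
  induction k with
  | zero => simp
  | succ k ih =>
    rw [Function.iterate_succ_apply', Function.iterate_succ_apply']
    have e1 : (h.1 (h.1^[k] ⟨p, mem_univ p⟩) : X) =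
        toX h ((h.1^[k] ⟨p, mem_univ p⟩ : (univ : Set X)) : X) := rfl
    rw [e1, ih]
    change _ = p + t • (t⁻¹ • (toX h (p + t • _) - p))
    rw [smul_smul, mul_inv_cancel₀ ht.ne', one_smul]
    abel

end B

open B in
/-- **Small copies of an open trap near every map.** -/
theorem t_B (base : S_BASE.{u}) (orb : S_ORB.{u}) (fix : S_FIX.{u}) (cut : S_CUT.{u})
    (gl : S_GL.{u}) : S_B.{u} := by
  intro X _ _ _ _ M hM
  obtain ⟨hNbOpen, hNb, hDense⟩ := base X (univ : Set X)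
  obtain ⟨f00, hf00⟩ := hM
  obtain ⟨Y1, ε1, hε1, hsub1⟩ := hNb _ f00 isOpen_interior hf00
  obtain ⟨f0, k0, p0, hf0Nb, hk0, hf0L, -⟩ :=
    fix X univ isClosed_univ convex_univ univ_nonempty f00 Y1 ε1 hε1
  have hf0int := hsub1 hf0Nb
  obtain ⟨Y0, ε0, hε0, hsub0⟩ := hNb _ f0 isOpen_interior hf0int
  obtain ⟨r0, hr0, hr0b⟩ := bound Y0
  obtain ⟨fc, ρ1, hr0ρ, hfcL, hfceq, hfc0, hfcb⟩ :=
    cut X (toX f0) k0 r0 hk0 (toX_lip f0 k0 hf0L) hr0
  have hρ1 : 0 < ρ1 := hr0.trans hr0ρ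
  refine hDense _ ?_
  intro f Y ε hε
  obtain ⟨f1, k1, p, hf1Nb, hk1, hf1L, hf1p⟩ :=
    fix X univ isClosed_univ convex_univ univ_nonempty f Y (ε / 2) (half_pos hε)
  have hσ : 0 < ε / 8 := by positivity
  obtain ⟨t, ht⟩ : ∃ t : ℝ, t = ε / 8 / ρ1 := ⟨_, rfl⟩
  have ht0 : 0 < t := by rw [ht]; positivity
  have htρ : t * ρ1 ≤ ε / 8 := by
    rw [ht]; exact le_of_eq (by field_simp)
  have hF1p : toX f1 (p : X) = p := by
    have : f1.1 p = p := hf1p
    exact congrArg (fun z : (univ : Set X) => (z : X)) this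
  obtain ⟨g, hgL, hgclose, hgp⟩ := gl X (toX f1) fc (p : X) (ε / 8) t ρ1
    (toX_lip f1 1 f1.2) hF1p hfcL hfc0 hfcb hρ1 hσ ht0 htρ
  refine ⟨ofX g hgL, ?_, ?_⟩
  · rw [mem_interior]
    classical
    refine ⟨Nb univ (ofX g hgL) (Y0.image (fun x : (univ : Set X) =>
      (⟨(p : X) + t • (x : X), mem_univ _⟩ : (univ : Set X))))
      (t * ε0), ?_, hNbOpen _ _ _, ?_⟩
    · intro h hh
      obtain ⟨h0, hh0⟩ : ∃ h0 : NE (univ : Set X), h0 =
        ofX (fun y => t⁻¹ • (toX h ((p : X) + t • y) - p))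
          (scaled_lip _ (toX_lip h 1 h.2) p t ht0) := ⟨_, rfl⟩
      have hmem : h0 ∈ Nb univ f0 Y0 ε0 := by
        intro x hx
        have h1 := hh ⟨(p : X) + t • (x : X), mem_univ _⟩ (Finset.mem_image_of_mem
          (fun x : (univ : Set X) => (⟨(p : X) + t • (x : X), mem_univ _⟩ : (univ : Set X))) hx)
        have hxr : ‖(x : X)‖ ≤ r0 := hr0b x hx
        have e1 : (f0.1 x : X) = fc (x : X) := (hfceq (x : X) hxr).symm
        have e2 : g ((p : X) + t • (x : X)) = p + t • fc (x : X) := hgp _ (hxr.trans hr0ρ.le)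
        have e3 : (h0.1 x : X) = t⁻¹ • (toX h ((p : X) + t • (x : X)) - p) := by rw [hh0]; rfl
        have e4 : (h0.1 x : X) - (f0.1 x : X) =
            t⁻¹ • (toX h ((p : X) + t • (x : X)) - g ((p : X) + t • (x : X))) := by
          rw [e3, e1, e2, smul_sub, smul_sub, smul_add, smul_smul, inv_mul_cancel₀ ht0.ne',
            one_smul]
          abel
        rw [e4, norm_smul, norm_inv, Real.norm_of_nonneg ht0.le, inv_mul_lt_iff₀ ht0]
        exact h1
      have hEE := interior_subset (hsub0 hmem)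
      rw [orb X univ isClosed_univ convex_univ p h]
      refine ⟨‖(p : X)‖ + t * M, ?_⟩
      intro k
      have e5 := iter h (p : X) t ht0 k
      have hk := hEE k
      rw [hh0] at hk
      have e6 : (⟨(p : X), mem_univ _⟩ : (univ : Set X)) = p := rfl
      rw [e6] at e5
      rw [e5]
      refine (norm_add_le _ _).trans ?_
      rw [norm_smul, Real.norm_of_nonneg ht0.le]
      have := mul_le_mul_of_nonneg_left hk ht0.le
      linarith
    · intro y _
      rw [sub_self, norm_zero]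
      positivity
  · intro y hy
    have h1 := hf1Nb y hy
    have h2 : ‖g (y : X) - toX f1 (y : X)‖ ≤ 2 * (ε / 8) := hgclose y
    have e1 : ((ofX g hgL).1 y : X) - (f.1 y : X) =
        (g (y : X) - toX f1 (y : X)) + ((f1.1 y : X) - (f.1 y : X)) := by
      change g (y : X) - (f.1 y : X) = (g (y : X) - (f1.1 y : X)) + ((f1.1 y : X) - (f.1 y : X))
      abel
    rw [e1]
    refine lt_of_le_of_lt (norm_add_le _ _) ?_
    linarith

end Pool.Agent.Q64.ZO
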