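import Pool.Agent.Q64.ZO.Stm

/-!
# Project ZO, job CUT: the logarithmic cut-off of a strict contraction
-/

open Filter Topology Set Metric
open scoped NNReal

namespace Pool.Agent.Q64.ZO

universe u

namespace CUT

/-- the cut-off factor -/
noncomputable def th (a r0 c s : ℝ) : ℝ :=
  max 0 (1 - c * (Real.log (a + max s r0) - Real.log (a + r0)))

theorem th_nonneg (a r0 c s : ℝ) : 0 ≤ th a r0 c s := le_max_left _ _

theorem th_one {a r0 c s : ℝ} (hs : s ≤ r0) : th a r0 c s = 1 := by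
  unfold th
  rw [max_eq_right hs]
  simp

theorem th_le_one {a r0 c s : ℝ} (ha : 0 ≤ a) (hr : 0 < r0) (hc : 0 ≤ c) : th a r0 c s ≤ 1 := by
  unfold th
  apply max_le zero_le_one
  have h1 : Real.log (a + r0) ≤ Real.log (a + max s r0) := by
    apply Real.log_le_log (by linarith)
    have := le_max_right s r0
    linarith
  have h2 : 0 ≤ c * (Real.log (a + max s r0) - Real.log (a + r0)) :=
    mul_nonneg hc (by linarith)
  linarith

theorem th_zero {a r0 c s : ℝ} (ha : 0 ≤ a) (hr : 0 < r0) (hc : 0 < c)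
    (hs : (a + r0) * Real.exp (1 / c) - a ≤ s) : th a r0 c s = 0 := by
  unfold th
  apply max_eq_left
  have hp : 0 < (a + r0) * Real.exp (1 / c) := mul_pos (by linarith) (Real.exp_pos _)
  have h1 : Real.log ((a + r0) * Real.exp (1 / c)) ≤ Real.log (a + max s r0) := by
    apply Real.log_le_log hp
    have := le_max_left s r0
    linarith
  rw [Real.log_mul (by linarith) (Real.exp_pos _).ne', Real.log_exp] at h1
  have h2 : 1 ≤ c * (Real.log (a + max s r0) - Real.log (a + r0)) := by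
    have h3 : 1 / c ≤ Real.log (a + max s r0) - Real.log (a + r0) := by linarith
    have h4 := mul_le_mul_of_nonneg_left h3 hc.le
    rwa [mul_one_div_cancel hc.ne'] at h4
  linarith

theorem th_diff {a r0 c s s' : ℝ} (ha : 0 ≤ a) (hr : 0 < r0) (hc : 0 ≤ c) (hs' : 0 ≤ s')
    (hss : s' ≤ s) : |th a r0 c s - th a r0 c s'| * (a + s') ≤ c * (s - s') := by
  have hm : max s' r0 ≤ max s r0 := max_le_max hss le_rfl
  have hpos' : 0 < a + max s' r0 := by
    have := le_max_right s' r0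
    linarith
  have hpos : 0 < a + max s r0 := by linarith
  have hlog : Real.log (a + max s r0) - Real.log (a + max s' r0) ≤
      (max s r0 - max s' r0) / (a + max s' r0) := by
    rw [← Real.log_div hpos.ne' hpos'.ne']
    have h := Real.log_le_sub_one_of_pos (div_pos hpos hpos')
    have e : (a + max s r0) / (a + max s' r0) - 1 = (max s r0 - max s' r0) / (a + max s' r0) := by
      field_simp
      ring
    linarith
  have hlog0 : 0 ≤ Real.log (a + max s r0) - Real.log (a + max s' r0) := by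
    have := Real.log_le_log hpos' (by linarith : a + max s' r0 ≤ a + max s r0)
    linarith
  have hmm : max s r0 - max s' r0 ≤ s - s' := by
    rcases le_total s r0 with h | h
    · rw [max_eq_right h, max_eq_right (hss.trans h)]
      linarith
    · rw [max_eq_left h]
      have := le_max_left s' r0
      linarith
  have hmul : (Real.log (a + max s r0) - Real.log (a + max s' r0)) * (a + s') ≤ s - s' := by
    have h1 : (Real.log (a + max s r0) - Real.log (a + max s' r0)) * (a + s') ≤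
        (Real.log (a + max s r0) - Real.log (a + max s' r0)) * (a + max s' r0) := by
      apply mul_le_mul_of_nonneg_left _ hlog0
      have := le_max_left s' r0
      linarith
    have h2 : (Real.log (a + max s r0) - Real.log (a + max s' r0)) * (a + max s' r0) ≤
        max s r0 - max s' r0 := by
      have := mul_le_mul_of_nonneg_right hlog hpos'.le
      rwa [div_mul_cancel₀ _ hpos'.ne'] at this
    linarith
  have habs : |th a r0 c s - th a r0 c s'| ≤
      c * (Real.log (a + max s r0) - Real.log (a + max s' r0)) := by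
    unfold th
    have h := abs_max_sub_max_le_max (0 : ℝ) (1 - c * (Real.log (a + max s r0) - Real.log (a + r0)))
      0 (1 - c * (Real.log (a + max s' r0) - Real.log (a + r0)))
    refine h.trans (max_le ?_ ?_)
    · rw [sub_self, abs_zero]
      exact mul_nonneg hc hlog0
    · have e : (1 - c * (Real.log (a + max s r0) - Real.log (a + r0))) -
          (1 - c * (Real.log (a + max s' r0) - Real.log (a + r0))) =
          -(c * (Real.log (a + max s r0) - Real.log (a + max s' r0))) := by ring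
      rw [e, abs_neg, abs_of_nonneg (mul_nonneg hc hlog0)]
  calc |th a r0 c s - th a r0 c s'| * (a + s') ≤
        (c * (Real.log (a + max s r0) - Real.log (a + max s' r0))) * (a + s') :=
        mul_le_mul_of_nonneg_right habs (by linarith)
    _ = c * ((Real.log (a + max s r0) - Real.log (a + max s' r0)) * (a + s')) := by ring
    _ ≤ c * (s - s') := mul_le_mul_of_nonneg_left hmul hc

variable {X : Type u} [NormedAddCommGroup X] [NormedSpace ℝ X]

theorem lip_aux (f : X → X) {k : ℝ≥0} {r0 : ℝ} (hk : k < 1) (hf : LipschitzWith k f)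
    (hr : 0 < r0) (y y' : X) (hy : ‖y'‖ ≤ ‖y‖) :
    ‖th ‖f 0‖ r0 (1 - (k : ℝ)) ‖y‖ • f y - th ‖f 0‖ r0 (1 - (k : ℝ)) ‖y'‖ • f y'‖ ≤ ‖y - y'‖ := by
  have hk1 : (k : ℝ) < 1 := by exact_mod_cast hk
  have hk0 : (0 : ℝ) ≤ k := k.2
  have ha : 0 ≤ ‖f 0‖ := norm_nonneg _
  have hfd : ∀ u v, ‖f u - f v‖ ≤ k * ‖u - v‖ := fun u v => by
    have := hf.dist_le_mul u v
    rwa [dist_eq_norm, dist_eq_norm] at this
  have hfy' : ‖f y'‖ ≤ ‖f 0‖ + ‖y'‖ := by
    have h1 := hfd y' 0
    rw [sub_zero] at h1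
    have h2 : ‖f y'‖ ≤ ‖f y' - f 0‖ + ‖f 0‖ := by
      have := norm_add_le (f y' - f 0) (f 0)
      rwa [sub_add_cancel] at this
    have h3 : (k : ℝ) * ‖y'‖ ≤ ‖y'‖ := by
      have := mul_le_mul_of_nonneg_right hk1.le (norm_nonneg y')
      linarith
    linarith
  have hd := th_diff (c := 1 - (k : ℝ)) ha hr (by linarith) (norm_nonneg y') hy
  have e : th ‖f 0‖ r0 (1 - (k : ℝ)) ‖y‖ • f y - th ‖f 0‖ r0 (1 - (k : ℝ)) ‖y'‖ • f y' =
      th ‖f 0‖ r0 (1 - (k : ℝ)) ‖y‖ • (f y - f y') +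
        (th ‖f 0‖ r0 (1 - (k : ℝ)) ‖y‖ - th ‖f 0‖ r0 (1 - (k : ℝ)) ‖y'‖) • f y' := by
    rw [smul_sub, sub_smul]
    abel
  rw [e]
  refine (norm_add_le _ _).trans ?_
  rw [norm_smul, norm_smul, Real.norm_eq_abs, Real.norm_eq_abs,
    abs_of_nonneg (th_nonneg _ _ _ _)]
  have h1 : th ‖f 0‖ r0 (1 - (k : ℝ)) ‖y‖ * ‖f y - f y'‖ ≤ k * ‖y - y'‖ := by
    have := mul_le_mul_of_nonneg_right (th_le_one (s := ‖y‖) (c := 1 - (k : ℝ)) ha hr (by linarith))
      (norm_nonneg (f y - f y'))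
    have h2 := hfd y y'
    linarith
  have h2 : |th ‖f 0‖ r0 (1 - (k : ℝ)) ‖y‖ - th ‖f 0‖ r0 (1 - (k : ℝ)) ‖y'‖| * ‖f y'‖ ≤
      (1 - (k : ℝ)) * (‖y‖ - ‖y'‖) :=
    (mul_le_mul_of_nonneg_left hfy' (abs_nonneg _)).trans hd
  have h3 : ‖y‖ - ‖y'‖ ≤ ‖y - y'‖ := norm_sub_norm_le y y'
  have h4 := mul_le_mul_of_nonneg_left h3 (by linarith : (0 : ℝ) ≤ 1 - (k : ℝ))
  linarith

end CUT

open CUT in
/-- The logarithmic cut-off of a strict contraction. -/
theorem t_CUT : S_CUT.{u} := by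
  intro X _ _ _ f k r0 hk hf hr
  have hk1 : (k : ℝ) < 1 := by exact_mod_cast hk
  have ha : 0 ≤ ‖f 0‖ := norm_nonneg _
  have hc : 0 < 1 - (k : ℝ) := by linarith
  have hρ : r0 < (‖f 0‖ + r0) * Real.exp (1 / (1 - (k : ℝ))) - ‖f 0‖ := by
    have h1 : 1 < Real.exp (1 / (1 - (k : ℝ))) := by
      rw [Real.one_lt_exp_iff]
      positivity
    have h2 := mul_lt_mul_of_pos_left h1 (by linarith : 0 < ‖f 0‖ + r0)
    linarith
  have hlip : LipschitzWith 1 (fun y => th ‖f 0‖ r0 (1 - (k : ℝ)) ‖y‖ • f y) := by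
    refine LipschitzWith.of_dist_le_mul fun y y' => ?_
    rw [NNReal.coe_one, one_mul, dist_eq_norm, dist_eq_norm]
    rcases le_total ‖y'‖ ‖y‖ with h | h
    · exact lip_aux f hk hf hr y y' h
    · rw [norm_sub_rev, norm_sub_rev y y']
      exact lip_aux f hk hf hr y' y h
  have hz : ∀ y : X, (‖f 0‖ + r0) * Real.exp (1 / (1 - (k : ℝ))) - ‖f 0‖ ≤ ‖y‖ →
      th ‖f 0‖ r0 (1 - (k : ℝ)) ‖y‖ • f y = 0 := fun y hy => by
    rw [th_zero ha hr hc hy, zero_smul]
  refine ⟨fun y => th ‖f 0‖ r0 (1 - (k : ℝ)) ‖y‖ • f y, _, hρ, hlip, ?_, hz, ?_⟩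
  · intro y hy
    show th ‖f 0‖ r0 (1 - (k : ℝ)) ‖y‖ • f y = f y
    rw [th_one hy, one_smul]
  · intro y hy
    set ρ1 : ℝ := (‖f 0‖ + r0) * Real.exp (1 / (1 - (k : ℝ))) - ‖f 0‖ with hρ1
    have hρ0 : 0 ≤ ρ1 := by linarith
    obtain ⟨y'', h1, h2⟩ : ∃ y'' : X, ‖y''‖ = ρ1 ∧ ‖y - y''‖ ≤ ρ1 - ‖y‖ := by
      by_cases h0 : y = 0
      · obtain ⟨z, hz⟩ := exists_norm_eq X hρ0
        refine ⟨z, hz, ?_⟩
        rw [h0, zero_sub, norm_neg, norm_zero, hz, sub_zero]
      · have hn : 0 < ‖y‖ := norm_pos_iff.mpr h0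
        refine ⟨(ρ1 / ‖y‖) • y, ?_, ?_⟩
        · rw [norm_smul, Real.norm_eq_abs, abs_of_nonneg (by positivity),
            div_mul_cancel₀ _ hn.ne']
        · have e : y - (ρ1 / ‖y‖) • y = -((ρ1 / ‖y‖ - 1) • y) := by
            rw [sub_smul, one_smul]
            abel
          have h3 : 0 ≤ ρ1 / ‖y‖ - 1 := by
            rw [sub_nonneg, one_le_div hn]
            exact hy
          rw [e, norm_neg, norm_smul, Real.norm_eq_abs, abs_of_nonneg h3, sub_mul,
            div_mul_cancel₀ _ hn.ne', one_mul]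
    have h3 := hlip.dist_le_mul y y''
    rw [NNReal.coe_one, one_mul, dist_eq_norm, dist_eq_norm] at h3
    have h4 : th ‖f 0‖ r0 (1 - (k : ℝ)) ‖y''‖ • f y'' = 0 := hz y'' h1.ge
    have h5 : ‖th ‖f 0‖ r0 (1 - (k : ℝ)) ‖y‖ • f y - th ‖f 0‖ r0 (1 - (k : ℝ)) ‖y''‖ • f y''‖ ≤
        ‖y - y''‖ := h3
    rw [h4, sub_zero] at h5
    exact h5.trans h2

end Pool.Agent.Q64.ZO
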