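import Pool.Agent.Q64.ZO.Stm

/-!
# Project ZO: strict contractions are dense (job ZO-FIX)
-/

open Filter Topology Set Metric
open scoped NNReal

namespace Pool.Agent.Q64.ZO

universe u

namespace FIX

variable {X : Type u} [NormedAddCommGroup X] [NormedSpace ℝ X] {C : Set X}

/-- the convex combination of `f` and the constant `x0` -/
def cmb (hC : Convex ℝ C) (f : C → C) (x0 : C) (s : ℝ) (h0 : 0 ≤ s) (h1 : s ≤ 1) (x : C) : C :=
  ⟨(1 - s) • (f x : X) + s • (x0 : X),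
    hC (f x).2 x0.2 (sub_nonneg.mpr h1) h0 (sub_add_cancel 1 s)⟩

lemma cmb_dist (hC : Convex ℝ C) (f : NE C) (x0 : C) (s : ℝ) (h0 : 0 ≤ s) (h1 : s ≤ 1) (x y : C) :
    dist (cmb hC f.1 x0 s h0 h1 x) (cmb hC f.1 x0 s h0 h1 y) ≤ (1 - s) * dist x y := by
  have h := f.2.dist_le_mul x y
  simp only [NNReal.coe_one, one_mul] at h
  rw [Subtype.dist_eq, dist_eq_norm]
  have h3 : ((cmb hC f.1 x0 s h0 h1 x : C) : X) - (cmb hC f.1 x0 s h0 h1 y : C)
      = (1 - s) • (((f.1 x : C) : X) - (f.1 y : C)) := by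
    simp only [cmb, smul_sub]
    abel
  rw [h3, norm_smul, Real.norm_of_nonneg (sub_nonneg.mpr h1), ← dist_eq_norm, ← Subtype.dist_eq]
  exact mul_le_mul_of_nonneg_left h (sub_nonneg.mpr h1)

end FIX

theorem t_FIX : S_FIX.{u} := by
  intro X _ _ _ C hCc hCv hne f Y ε hε
  obtain ⟨x0, hx0⟩ := hne
  set D : ℝ := ∑ y ∈ Y, ‖x0 - (f.1 y : X)‖ with hD
  have hD0 : 0 ≤ D := Finset.sum_nonneg fun _ _ => norm_nonneg _
  have hden : 0 < ε + D + 1 := by positivity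
  set s : ℝ := ε / (ε + D + 1) with hs
  have hs0 : 0 < s := div_pos hε hden
  have hs1 : s < 1 := by rw [hs, div_lt_one hden]; linarith
  have hk0 : 0 ≤ 1 - s := by linarith
  set g : C → C := FIX.cmb hCv f.1 ⟨x0, hx0⟩ s hs0.le hs1.le with hg
  obtain ⟨k, hk⟩ : ∃ k : ℝ≥0, (k : ℝ) = 1 - s := ⟨⟨1 - s, hk0⟩, rfl⟩
  have hlip : LipschitzWith k g := LipschitzWith.of_dist_le_mul fun x y => by
    rw [hk]; exact FIX.cmb_dist hCv f ⟨x0, hx0⟩ s hs0.le hs1.le x y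
  have hlt : k < 1 := by
    rw [← NNReal.coe_lt_coe, hk, NNReal.coe_one]; linarith
  have : CompleteSpace C := hCc.completeSpace_coe
  have : Nonempty C := ⟨⟨x0, hx0⟩⟩
  have hcon : ContractingWith k g := ⟨hlt, hlip⟩
  refine ⟨⟨g, hlip.weaken hlt.le⟩, k, hcon.fixedPoint g, ?_, hlt, hlip,
    hcon.fixedPoint_isFixedPt⟩
  intro y hy
  have h1 : ((g y : C) : X) - (f.1 y : X) = s • (x0 - (f.1 y : X)) := by
    simp only [hg, FIX.cmb, smul_sub, sub_smul, one_smul]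
    abel
  have h2 : ‖x0 - (f.1 y : X)‖ ≤ D :=
    Finset.single_le_sum (f := fun y : C => ‖x0 - (f.1 y : X)‖) (fun _ _ => norm_nonneg _) hy
  show ‖((g y : C) : X) - (f.1 y : X)‖ < ε
  rw [h1, norm_smul, Real.norm_of_nonneg hs0.le]
  calc s * ‖x0 - (f.1 y : X)‖ ≤ s * D := mul_le_mul_of_nonneg_left h2 hs0.le
    _ < ε := by
        rw [hs, div_mul_eq_mul_div, div_lt_iff₀ hden]
        nlinarith

end Pool.Agent.Q64.ZO
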