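import Pool.Agent.Q64.ZO.Stm

/-!
JOB ZO-GL (helper160) of project ZO (helper64), MP_55f1f5_an.
-/

set_option autoImplicit false

open Filter Topology Set Metric
open scoped NNReal

namespace Pool.Agent.Q64.ZO

universe u

namespace GLs

variable {X : Type u} [NormedAddCommGroup X] [NormedSpace ℝ X]

/-- the small copy -/
noncomputable def sm (fc : X → X) (p : X) (t : ℝ) (x : X) : X := t • fc (t⁻¹ • (x - p))

theorem sm_lip {fc : X → X} (hfc : LipschitzWith 1 fc) (p : X) {t : ℝ} (ht : 0 < t) (x y : X) :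
    ‖sm fc p t x - sm fc p t y‖ ≤ ‖x - y‖ := by
  have h1 := hfc.dist_le_mul (t⁻¹ • (x - p)) (t⁻¹ • (y - p))
  rw [dist_eq_norm, dist_eq_norm, ← smul_sub, norm_smul, Real.norm_eq_abs,
    abs_of_pos (inv_pos.2 ht)] at h1
  have e1 : x - p - (y - p) = x - y := by abel
  rw [e1] at h1
  unfold sm
  rw [← smul_sub, norm_smul, Real.norm_eq_abs, abs_of_pos ht]
  calc t * ‖fc (t⁻¹ • (x - p)) - fc (t⁻¹ • (y - p))‖ ≤ t * (t⁻¹ * ‖x - y‖) := by
        apply mul_le_mul_of_nonneg_left _ ht.le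
        simpa using h1
    _ = ‖x - y‖ := by
        rw [← mul_assoc, mul_inv_cancel₀ ht.ne', one_mul]

theorem sm_le {fc : X → X} {p : X} {t r : ℝ} (ht : 0 < t) (h0 : ∀ y, r ≤ ‖y‖ → fc y = 0)
    (h1 : ∀ y, ‖y‖ ≤ r → ‖fc y‖ ≤ r - ‖y‖) (x : X) :
    ‖sm fc p t x‖ ≤ max 0 (t * r - ‖x - p‖) := by
  unfold sm
  have e1 : ‖t⁻¹ • (x - p)‖ = t⁻¹ * ‖x - p‖ := by
    rw [norm_smul, Real.norm_eq_abs, abs_of_pos (inv_pos.2 ht)]
  rcases le_total r ‖t⁻¹ • (x - p)‖ with h | h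
  · rw [h0 _ h, smul_zero, norm_zero]
    exact le_max_left _ _
  · have h2 := h1 _ h
    rw [norm_smul, Real.norm_eq_abs, abs_of_pos ht]
    refine le_trans ?_ (le_max_right _ _)
    calc t * ‖fc (t⁻¹ • (x - p))‖ ≤ t * (r - ‖t⁻¹ • (x - p)‖) :=
          mul_le_mul_of_nonneg_left h2 ht.le
      _ = t * r - ‖x - p‖ := by
          rw [e1, mul_sub, ← mul_assoc, mul_inv_cancel₀ ht.ne', one_mul]

end GLs

theorem t_GL (hrad : S_RAD.{u}) : S_GL.{u} := by
  intro X _ _ f1 fc p σ t r hf1 hp hfc h0 h1 hr hσ ht htr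
  obtain ⟨hl, hd, hin, hout, _⟩ := hrad X p σ hσ
  have hf1' : ∀ x y : X, ‖f1 x - f1 y‖ ≤ ‖x - y‖ := by
    intro x y
    have := hf1.dist_le_mul x y
    rw [dist_eq_norm, dist_eq_norm] at this
    simpa using this
  have hl' : ∀ x y : X, ‖rad p σ x - rad p σ y‖ ≤ ‖x - y‖ := by
    intro x y
    have := hl.dist_le_mul x y
    rw [dist_eq_norm, dist_eq_norm] at this
    simpa using this
  have hsm := fun x : X => GLs.sm_le (p := p) ht h0 h1 x
  have hsm0 : ∀ x : X, σ ≤ ‖x - p‖ → GLs.sm fc p t x = 0 := by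
    intro x hx
    have h2 := hsm x
    rw [max_eq_left (by linarith)] at h2
    exact norm_le_zero_iff.1 h2
  -- the mixed case
  have hmix : ∀ x y : X, ‖x - p‖ ≤ σ → σ ≤ ‖y - p‖ →
      ‖(f1 (rad p σ x) + GLs.sm fc p t x) - (f1 (rad p σ y) + GLs.sm fc p t y)‖ ≤ ‖x - y‖ := by
    intro x y hx hy
    rw [hin x hx, hsm0 y hy, add_zero]
    have h2 : ‖f1 (rad p σ y) - f1 p‖ ≤ ‖y - p‖ - σ := by
      rw [← hout y hy]
      exact hf1' _ _
    have h3 : ‖y - p‖ ≤ ‖x - y‖ + ‖x - p‖ := by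
      have e1 : y - p = (x - p) - (x - y) := by abel
      rw [e1]
      calc ‖(x - p) - (x - y)‖ ≤ ‖x - p‖ + ‖x - y‖ := norm_sub_le _ _
        _ = ‖x - y‖ + ‖x - p‖ := add_comm _ _
    have e2 : f1 p + GLs.sm fc p t x - f1 (rad p σ y) =
        GLs.sm fc p t x - (f1 (rad p σ y) - f1 p) := by abel
    rw [e2]
    calc ‖GLs.sm fc p t x - (f1 (rad p σ y) - f1 p)‖
        ≤ ‖GLs.sm fc p t x‖ + ‖f1 (rad p σ y) - f1 p‖ := norm_sub_le _ _
      _ ≤ max 0 (t * r - ‖x - p‖) + (‖y - p‖ - σ) := add_le_add (hsm x) h2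
      _ ≤ ‖x - y‖ := by
          rcases le_total 0 (t * r - ‖x - p‖) with h4 | h4
          · rw [max_eq_right h4]
            linarith
          · rw [max_eq_left h4]
            linarith
  refine ⟨fun x => f1 (rad p σ x) + GLs.sm fc p t x, ?_, ?_, ?_⟩
  · apply LipschitzWith.of_dist_le_mul
    intro x y
    rw [dist_eq_norm, dist_eq_norm, NNReal.coe_one, one_mul]
    rcases le_total ‖x - p‖ σ with hx | hx
    · rcases le_total ‖y - p‖ σ with hy | hy
      · rw [hin x hx, hin y hy]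
        have e1 : f1 p + GLs.sm fc p t x - (f1 p + GLs.sm fc p t y) =
            GLs.sm fc p t x - GLs.sm fc p t y := by abel
        rw [e1]
        exact GLs.sm_lip hfc p ht x y
      · exact hmix x y hx hy
    · rcases le_total ‖y - p‖ σ with hy | hy
      · have h2 := hmix y x hy hx
        rw [norm_sub_rev (f1 (rad p σ x) + GLs.sm fc p t x), norm_sub_rev x y]
        exact h2
      · rw [hsm0 x hx, hsm0 y hy, add_zero, add_zero]
        exact (hf1' _ _).trans (hl' _ _)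
  · intro x
    have e1 : f1 (rad p σ x) + GLs.sm fc p t x - f1 x =
        (f1 (rad p σ x) - f1 x) + GLs.sm fc p t x := by abel
    calc ‖f1 (rad p σ x) + GLs.sm fc p t x - f1 x‖
        = ‖(f1 (rad p σ x) - f1 x) + GLs.sm fc p t x‖ := by rw [e1]
      _ ≤ ‖f1 (rad p σ x) - f1 x‖ + ‖GLs.sm fc p t x‖ := norm_add_le _ _
      _ ≤ σ + σ := by
          apply add_le_add ((hf1' _ _).trans (hd x))
          refine (hsm x).trans (max_le hσ.le ?_)
          have := norm_nonneg (x - p)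
          linarith
      _ = 2 * σ := by ring
  · intro y hy
    have e1 : p + t • y - p = t • y := by abel
    have h2 : ‖p + t • y - p‖ ≤ σ := by
      rw [e1, norm_smul, Real.norm_eq_abs, abs_of_pos ht]
      exact (mul_le_mul_of_nonneg_left hy ht.le).trans htr
    change f1 (rad p σ (p + t • y)) + t • fc (t⁻¹ • (p + t • y - p)) = p + t • fc y
    rw [hin _ h2, hp, e1, smul_smul, inv_mul_cancel₀ ht.ne', one_smul]

end Pool.Agent.Q64.ZO
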