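import Pool.Agent.Q64.ZO.Stm

/-!
# Project ZO (helper64), JOB MG: the sets `EE` are closed and `FF` is their union
-/

set_option autoImplicit false

open Filter Topology Set Metric
open scoped NNReal

namespace Pool.Agent.Q64.ZO

universe u

namespace MG

theorem cont_iter {X : Type u} [NormedAddCommGroup X] (C : Set X) (x0 : C) (k : ℕ) :
    Continuous (fun f : NE C => f.1^[k] x0) := by
  induction k with
  | zero => exact continuous_const
  | succ k ih =>
    rw [continuous_iff_continuousAt]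
    intro f
    have h1 : Tendsto (fun h : NE C => dist (h.1^[k] x0) (f.1^[k] x0)) (𝓝 f) (𝓝 0) :=
      tendsto_iff_dist_tendsto_zero.1 (ih.tendsto f)
    have h2 : Tendsto (fun h : NE C => dist (h.1 (f.1^[k] x0)) (f.1 (f.1^[k] x0))) (𝓝 f) (𝓝 0) := by
      have hc : Continuous (fun h : NE C => h.1 (f.1^[k] x0)) :=
        (continuous_apply (f.1^[k] x0)).comp continuous_subtype_val
      exact tendsto_iff_dist_tendsto_zero.1 (hc.tendsto f)
    have h3 : Tendsto (fun h : NE C => dist (h.1^[k] x0) (f.1^[k] x0) +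
        dist (h.1 (f.1^[k] x0)) (f.1 (f.1^[k] x0))) (𝓝 f) (𝓝 0) := by
      have := h1.add h2
      rwa [add_zero] at this
    show Tendsto (fun h : NE C => h.1^[k + 1] x0) (𝓝 f) (𝓝 (f.1^[k + 1] x0))
    rw [tendsto_iff_dist_tendsto_zero]
    refine squeeze_zero (fun _ => dist_nonneg) (fun h => ?_) h3
    rw [Function.iterate_succ_apply', Function.iterate_succ_apply']
    refine (dist_triangle _ (h.1 (f.1^[k] x0)) _).trans ?_
    have h4 := h.2.dist_le_mul (h.1^[k] x0) (f.1^[k] x0)
    rw [NNReal.coe_one, one_mul] at h4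
    linarith

theorem closed_EE {X : Type u} [NormedAddCommGroup X] (C : Set X) (x0 : C) (M : ℝ) :
    IsClosed (EE C x0 M) := by
  have h : EE C x0 M = ⋂ k : ℕ, {f : NE C | ‖((f.1^[k] x0 : C) : X)‖ ≤ M} := by
    ext f
    simp only [EE, mem_setOf_eq, mem_iInter]
  rw [h]
  refine isClosed_iInter fun k => ?_
  exact isClosed_le ((continuous_subtype_val.comp (cont_iter C x0 k)).norm) continuous_const

end MG

theorem t_MG (orb : S_ORB.{u}) : S_MG.{u} := by
  intro X _ _ C hC hconv x0 hint
  have hU : FF C = ⋃ n : ℕ, EE C x0 (n : ℝ) := by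
    ext f
    rw [orb X C hC hconv x0 f, mem_iUnion]
    constructor
    · rintro ⟨M, hM⟩
      obtain ⟨n, hn⟩ := exists_nat_ge M
      exact ⟨n, fun k => (hM k).trans hn⟩
    · rintro ⟨n, hn⟩
      exact ⟨n, hn⟩
  rw [hU]
  refine isMeagre_iUnion fun n => ?_
  apply IsNowhereDense.isMeagre
  rw [(MG.closed_EE C x0 (n : ℝ)).isNowhereDense_iff]
  exact hint n

end Pool.Agent.Q64.ZO
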