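import Pool.Agent.Q64.ZO.Stm

/-!
# Project ZO: bounded orbits and bounded invariant convex sets (job ZO-ORB)
-/

open Filter Topology Set Metric
open scoped NNReal

namespace Pool.Agent.Q64.ZO

universe u

namespace ORB

variable {X : Type u} [NormedAddCommGroup X] {C : Set X}

lemma norm_map (f : NE C) (x y : C) :
    ‖((f.1 x : C) : X) - (f.1 y : C)‖ ≤ ‖(x : X) - y‖ := by
  have h := f.2.dist_le_mul x y
  simp only [NNReal.coe_one, one_mul] at h
  rwa [Subtype.dist_eq, Subtype.dist_eq, dist_eq_norm, dist_eq_norm] at h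

lemma norm_iter (f : NE C) (x y : C) (k : ℕ) :
    ‖((f.1^[k] x : C) : X) - (f.1^[k] y : C)‖ ≤ ‖(x : X) - y‖ := by
  induction k with
  | zero => simp
  | succ k ih =>
    rw [Function.iterate_succ_apply', Function.iterate_succ_apply']
    exact (norm_map f _ _).trans ih

/-- the set of the points whose asymptotic distance from the orbit is at most `2 M` -/
def KK (f : NE C) (x0 : C) (M : ℝ) : Set X :=
  {y | y ∈ C ∧ ∀ ε : ℝ, 0 < ε → ∀ᶠ k : ℕ in atTop, ‖((f.1^[k] x0 : C) : X) - y‖ ≤ 2 * M + ε}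

lemma mem_KK (f : NE C) (x0 : C) (M : ℝ) (hM : f ∈ EE C x0 M) : (x0 : X) ∈ KK f x0 M := by
  refine ⟨x0.2, fun ε hε => Eventually.of_forall fun k => ?_⟩
  have h1 := hM k
  have h2 := hM 0
  simp only [Function.iterate_zero, id_eq] at h2
  have h3 := norm_sub_le ((f.1^[k] x0 : C) : X) (x0 : X)
  linarith

lemma closed_KK (hC : IsClosed C) (f : NE C) (x0 : C) (M : ℝ) : IsClosed (KK f x0 M) := by
  refine isClosed_of_closure_subset fun y hy => ⟨?_, fun ε hε => ?_⟩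
  · exact hC.closure_subset_iff.mpr (fun z hz => hz.1) hy
  · obtain ⟨z, hz, hyz⟩ := Metric.mem_closure_iff.mp hy (ε / 2) (half_pos hε)
    rw [dist_comm, dist_eq_norm] at hyz
    filter_upwards [hz.2 (ε / 2) (half_pos hε)] with k hk
    have h3 := norm_sub_le_norm_sub_add_norm_sub ((f.1^[k] x0 : C) : X) z y
    linarith

lemma bdd_KK (f : NE C) (x0 : C) (M : ℝ) (hM : f ∈ EE C x0 M) :
    Bornology.IsBounded (KK f x0 M) := by
  refine isBounded_iff_forall_norm_le.mpr ⟨3 * M + 1, fun y hy => ?_⟩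
  obtain ⟨k, hk⟩ := (hy.2 1 one_pos).exists
  have h1 := hM k
  have h2 := norm_sub_le ((f.1^[k] x0 : C) : X) (((f.1^[k] x0 : C) : X) - y)
  rw [sub_sub_cancel] at h2
  linarith

lemma convex_KK [NormedSpace ℝ X] (hC : Convex ℝ C) (f : NE C) (x0 : C) (M : ℝ) :
    Convex ℝ (KK f x0 M) := by
  intro y hy z hz a b ha hb hab
  refine ⟨hC hy.1 hz.1 ha hb hab, fun ε hε => ?_⟩
  filter_upwards [hy.2 ε hε, hz.2 ε hε] with k h1 h2
  have h3 : ((f.1^[k] x0 : C) : X) - (a • y + b • z)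
      = a • (((f.1^[k] x0 : C) : X) - y) + b • (((f.1^[k] x0 : C) : X) - z) := by
    have h4 : ((f.1^[k] x0 : C) : X) = (a + b) • ((f.1^[k] x0 : C) : X) := by rw [hab, one_smul]
    conv_lhs => rw [h4]
    rw [add_smul, smul_sub, smul_sub]
    abel
  rw [h3]
  calc ‖a • (((f.1^[k] x0 : C) : X) - y) + b • (((f.1^[k] x0 : C) : X) - z)‖
      ≤ ‖a • (((f.1^[k] x0 : C) : X) - y)‖ + ‖b • (((f.1^[k] x0 : C) : X) - z)‖ := norm_add_le _ _
    _ = a * ‖((f.1^[k] x0 : C) : X) - y‖ + b * ‖((f.1^[k] x0 : C) : X) - z‖ := by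
        rw [norm_smul, norm_smul, Real.norm_of_nonneg ha, Real.norm_of_nonneg hb]
    _ ≤ a * (2 * M + ε) + b * (2 * M + ε) :=
        add_le_add (mul_le_mul_of_nonneg_left h1 ha) (mul_le_mul_of_nonneg_left h2 hb)
    _ = 2 * M + ε := by rw [← add_mul, hab, one_mul]

lemma inv_KK (f : NE C) (x0 : C) (M : ℝ) (x : C) (hx : (x : X) ∈ KK f x0 M) :
    (f.1 x : X) ∈ KK f x0 M := by
  refine ⟨(f.1 x).2, fun ε hε => ?_⟩
  obtain ⟨N, hN⟩ := eventually_atTop.mp (hx.2 ε hε)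
  refine eventually_atTop.mpr ⟨N + 1, fun k hk => ?_⟩
  obtain ⟨m, rfl⟩ : ∃ m, k = m + 1 := ⟨k - 1, by omega⟩
  rw [Function.iterate_succ_apply']
  exact (norm_map f _ _).trans (hN m (by omega))

end ORB

theorem t_ORB : S_ORB.{u} := by
  intro X _ _ C hCc hCv x0 f
  constructor
  · rintro ⟨K, hne, hKC, -, -, hKb, hinv⟩
    obtain ⟨y, hy⟩ := hne
    obtain ⟨R, hR⟩ := isBounded_iff_forall_norm_le.mp hKb
    have hk : ∀ k : ℕ, ((f.1^[k] ⟨y, hKC hy⟩ : C) : X) ∈ K := by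
      intro k
      induction k with
      | zero => exact hy
      | succ k ih => rw [Function.iterate_succ_apply']; exact hinv _ ih
    refine ⟨‖(x0 : X) - y‖ + R, fun k => ?_⟩
    have h1 := ORB.norm_iter f x0 ⟨y, hKC hy⟩ k
    have h2 := hR _ (hk k)
    have h3 := norm_add_le (((f.1^[k] x0 : C) : X) - (f.1^[k] ⟨y, hKC hy⟩ : C))
      ((f.1^[k] ⟨y, hKC hy⟩ : C) : X)
    rw [sub_add_cancel] at h3
    exact h3.trans (add_le_add h1 h2)
  · rintro ⟨M, hM⟩
    exact ⟨ORB.KK f x0 M, ⟨x0, ORB.mem_KK f x0 M hM⟩, fun y hy => hy.1, ORB.closed_KK hCc f x0 M,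
      ORB.convex_KK hCv f x0 M, ORB.bdd_KK f x0 M hM, ORB.inv_KK f x0 M⟩

end Pool.Agent.Q64.ZO
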