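import Pool.Agent.Q64.ZO.Stm

/-!
The radial soft threshold is nonexpansive in every normed space.
-/

set_option autoImplicit false

open Filter Topology Set Metric
open scoped NNReal

namespace Pool.Agent.Q64.ZO

universe u

namespace RAD

variable {X : Type u} [NormedAddCommGroup X] [NormedSpace ℝ X]

/-- the displacement from the centre -/
noncomputable def sh (σ : ℝ) (u : X) : X := (max 0 (1 - σ / ‖u‖)) • u

theorem sh_small {σ : ℝ} {u : X} (h : ‖u‖ ≤ σ) : sh σ u = 0 := by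
  unfold sh
  rcases eq_or_ne u 0 with h0 | h0
  · rw [h0, smul_zero]
  · have h1 : 0 < ‖u‖ := norm_pos_iff.2 h0
    have h2 : 1 ≤ σ / ‖u‖ := (one_le_div h1).2 h
    rw [max_eq_left (by linarith), zero_smul]

omit [NormedSpace ℝ X] in
theorem coef_large {σ : ℝ} (hσ : 0 < σ) {u : X} (h : σ ≤ ‖u‖) :
    max 0 (1 - σ / ‖u‖) = 1 - σ / ‖u‖ := by
  have h1 : 0 < ‖u‖ := lt_of_lt_of_le hσ h
  have h2 : σ / ‖u‖ ≤ 1 := (div_le_one h1).2 h
  exact max_eq_right (by linarith)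

theorem norm_sh {σ : ℝ} (hσ : 0 < σ) {u : X} (h : σ ≤ ‖u‖) : ‖sh σ u‖ = ‖u‖ - σ := by
  have h1 : 0 < ‖u‖ := lt_of_lt_of_le hσ h
  have h2 : σ / ‖u‖ ≤ 1 := (div_le_one h1).2 h
  unfold sh
  rw [coef_large hσ h, norm_smul, Real.norm_of_nonneg (by linarith)]
  field_simp

theorem sh_sub {σ : ℝ} (hσ : 0 < σ) (u v : X) : ‖sh σ u - sh σ v‖ ≤ ‖u - v‖ := by
  rcases le_total ‖u‖ σ with hu | hu
  · rcases le_total ‖v‖ σ with hv | hv
    · rw [sh_small hu, sh_small hv, sub_zero, norm_zero]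
      exact norm_nonneg _
    · rw [sh_small hu, zero_sub, norm_neg, norm_sh hσ hv, norm_sub_rev]
      have := norm_sub_norm_le v u
      linarith
  · rcases le_total ‖v‖ σ with hv | hv
    · rw [sh_small hv, sub_zero, norm_sh hσ hu]
      have := norm_sub_norm_le u v
      linarith
    · have hu0 : 0 < ‖u‖ := lt_of_lt_of_le hσ hu
      have hv0 : 0 < ‖v‖ := lt_of_lt_of_le hσ hv
      have hu1 : σ / ‖u‖ ≤ 1 := (div_le_one hu0).2 hu
      have e : sh σ u - sh σ v =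
          (1 - σ / ‖u‖) • (u - v) + ((1 - σ / ‖u‖) - (1 - σ / ‖v‖)) • v := by
        unfold sh
        rw [coef_large hσ hu, coef_large hσ hv]
        module
      have h1 : ‖(1 - σ / ‖u‖) • (u - v)‖ = (1 - σ / ‖u‖) * ‖u - v‖ := by
        rw [norm_smul, Real.norm_of_nonneg (by linarith)]
      have h2 : ‖((1 - σ / ‖u‖) - (1 - σ / ‖v‖)) • v‖ ≤ σ / ‖u‖ * ‖u - v‖ := by
        have e2 : ((1 - σ / ‖u‖) - (1 - σ / ‖v‖)) * ‖v‖ = σ / ‖u‖ * (‖u‖ - ‖v‖) := by
          field_simp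
          ring
        have e3 : ‖((1 - σ / ‖u‖) - (1 - σ / ‖v‖)) • v‖ = |σ / ‖u‖ * (‖u‖ - ‖v‖)| := by
          rw [← e2, norm_smul, Real.norm_eq_abs, abs_mul, abs_of_pos hv0]
        rw [e3, abs_mul, abs_of_pos (div_pos hσ hu0)]
        exact mul_le_mul_of_nonneg_left (abs_norm_sub_norm_le u v) (div_pos hσ hu0).le
      rw [e]
      refine (norm_add_le _ _).trans ?_
      rw [h1]
      calc (1 - σ / ‖u‖) * ‖u - v‖ + ‖((1 - σ / ‖u‖) - (1 - σ / ‖v‖)) • v‖
          ≤ (1 - σ / ‖u‖) * ‖u - v‖ + σ / ‖u‖ * ‖u - v‖ := by linarith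
        _ = ‖u - v‖ := by ring

theorem rad_eq (p : X) (σ : ℝ) (x : X) : rad p σ x = p + sh σ (x - p) := rfl

end RAD

theorem t_RAD : S_RAD.{u} := by
  intro X _ _ p σ hσ
  refine ⟨?_, ?_, ?_, ?_, ?_⟩
  · refine LipschitzWith.of_dist_le_mul fun x y => ?_
    rw [dist_eq_norm, dist_eq_norm, NNReal.coe_one, one_mul, RAD.rad_eq, RAD.rad_eq,
      add_sub_add_left_eq_sub]
    have h := RAD.sh_sub hσ (x - p) (y - p)
    rwa [sub_sub_sub_cancel_right] at h
  · intro x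
    rw [RAD.rad_eq]
    rcases le_total ‖x - p‖ σ with h | h
    · rw [RAD.sh_small h, add_zero, norm_sub_rev]
      exact h
    · have h0 : 0 < ‖x - p‖ := lt_of_lt_of_le hσ h
      have e : p + RAD.sh σ (x - p) - x = (-(σ / ‖x - p‖)) • (x - p) := by
        unfold RAD.sh
        rw [RAD.coef_large hσ h, sub_smul, one_smul, neg_smul]
        abel
      rw [e, norm_smul, norm_neg, Real.norm_of_nonneg (div_pos hσ h0).le]
      rw [div_mul_cancel₀ _ h0.ne']
  · intro x hx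
    rw [RAD.rad_eq, RAD.sh_small hx, add_zero]
  · intro x hx
    rw [RAD.rad_eq, add_sub_cancel_left]
    exact RAD.norm_sh hσ hx
  · intro C hC hp x hx
    unfold rad
    refine hC.add_smul_sub_mem hp hx ⟨le_max_left _ _, ?_⟩
    refine max_le zero_le_one ?_
    have : 0 ≤ σ / ‖x - p‖ := div_nonneg hσ.le (norm_nonneg _)
    linarith

end Pool.Agent.Q64.ZO
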