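import Pool.Agent.Q64.ZO.BASE
import Pool.Agent.Q64.ZO.ORB
import Pool.Agent.Q64.ZO.MG
import Pool.Agent.Q64.ZO.FIX
import Pool.Agent.Q64.ZO.RAD
import Pool.Agent.Q64.ZO.CUT
import Pool.Agent.Q64.ZO.GL
import Pool.Agent.Q64.ZO.A
import Pool.Agent.Q64.ZO.B

/-! Assembly of project ZO (helper64). -/

open Filter Topology Set Metric
open scoped NNReal

namespace Pool.Agent.Q64.ZO

universe u

theorem all_A (X : Type u) [NormedAddCommGroup X] [NormedSpace ℝ X] [CompleteSpace X]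
    (C : Set X) (hC : IsClosed C) (hK : Convex ℝ C)
    (h : ∃ q ∈ C, ∃ R d : ℝ, 0 < R ∧ 0 < d ∧ ∃ Z : Set X, Z.Finite ∧ Z ⊆ C ∧
      ∀ x ∈ C, ‖x - q‖ ≤ R → ∃ z ∈ Z, ‖x - z‖ ≤ R - d) :
    ∃ O : Set (NE C), IsOpen O ∧ Dense O ∧ O ⊆ FF C := by
  classical
  obtain ⟨q, hq, R, d, hR, hd, Z, hZ, hZC, hcov⟩ := h
  have hfin : {z : C | (z : X) ∈ Z}.Finite :=
    hZ.preimage (Subtype.val_injective.injOn)
  refine ⟨interior (FF C), isOpen_interior, ?_, interior_subset⟩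
  refine t_A t_BASE t_FIX t_RAD X C hC hK ⟨q, hq⟩ R d hfin.toFinset hR hd ?_
  intro x hx
  obtain ⟨z, hz, hxz⟩ := hcov x x.2 hx
  exact ⟨⟨z, hZC hz⟩, by simpa using hz, hxz⟩

theorem all_B (X : Type u) [NormedAddCommGroup X] [NormedSpace ℝ X] [CompleteSpace X] :
    IsMeagre (FF (univ : Set X)) ∨
      ∃ O : Set (NE (univ : Set X)), IsOpen O ∧ Dense O ∧ O ⊆ FF (univ : Set X) := by
  rcases subsingleton_or_nontrivial X with hs | hn
  · right
    refine ⟨univ, isOpen_univ, dense_univ, fun f _ => ?_⟩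
    refine ⟨univ, univ_nonempty, subset_univ _, isClosed_univ, convex_univ, ?_, fun _ _ => mem_univ _⟩
    exact (Set.toFinite (univ : Set X)).isBounded
  · by_cases h : ∀ M : ℝ, interior (EE (univ : Set X) ⟨0, mem_univ 0⟩ M) = ∅
    · left
      exact t_MG t_ORB X univ isClosed_univ convex_univ ⟨0, mem_univ 0⟩ h
    · right
      push Not at h
      obtain ⟨M, hM⟩ := h
      exact ⟨interior (FF (univ : Set X)), isOpen_interior,
        t_B t_BASE t_ORB t_FIX t_CUT (t_GL t_RAD) X M hM, interior_subset⟩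

end Pool.Agent.Q64.ZO
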