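import Pool.Agent.Q64.ZO.Stm

/-!
# Project ZO: the basis of the topology of pointwise convergence (helper18)
-/

set_option autoImplicit false

open Filter Topology Set Metric
open scoped NNReal

namespace Pool.Agent.Q64.ZO.BASE

universe u

variable {X : Type u} [NormedAddCommGroup X] {C : Set X}

theorem isOpen_Nb (f : NE C) (Y : Finset C) (ε : ℝ) : IsOpen (Nb C f Y ε) := by
  have h : Nb C f Y ε = ⋂ y ∈ Y, {h : NE C | ‖(h.1 y : X) - (f.1 y : X)‖ < ε} := by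
    ext h
    simp only [Nb, mem_setOf_eq, mem_iInter]
  rw [h]
  refine isOpen_biInter_finset fun y _ => ?_
  have hc : Continuous fun h : NE C => ‖(h.1 y : X) - (f.1 y : X)‖ :=
    ((continuous_subtype_val.comp ((continuous_apply y).comp continuous_subtype_val)).sub
      continuous_const).norm
  exact isOpen_lt hc continuous_const

theorem exists_Nb (O : Set (NE C)) (f : NE C) (hO : IsOpen O) (hf : f ∈ O) :
    ∃ (Y : Finset C) (ε : ℝ), 0 < ε ∧ Nb C f Y ε ⊆ O := by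
  obtain ⟨U, hU, hUO⟩ := isOpen_induced_iff.1 hO
  have hfU : f.1 ∈ U := by
    rw [← hUO] at hf
    exact hf
  obtain ⟨I, u, hu, hIu⟩ := isOpen_pi_iff.1 hU f.1 hfU
  have h1 : ∀ᶠ ε in 𝓝[>] (0 : ℝ), ∀ a ∈ I, ball (f.1 a) ε ⊆ u a := by
    rw [Filter.eventually_all_finset]
    intro a ha
    obtain ⟨δ, hδ, hb⟩ := Metric.isOpen_iff.1 (hu a ha).1 (f.1 a) (hu a ha).2
    filter_upwards [Ioo_mem_nhdsGT hδ] with ε hε
    exact (ball_subset_ball hε.2.le).trans hb
  obtain ⟨ε, hε, hε0⟩ := (h1.and self_mem_nhdsWithin).exists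
  refine ⟨I, ε, hε0, fun h hh => ?_⟩
  rw [← hUO]
  apply hIu
  intro a ha
  apply hε a ha
  rw [mem_ball, Subtype.dist_eq, dist_eq_norm]
  exact hh a ha

end Pool.Agent.Q64.ZO.BASE

namespace Pool.Agent.Q64.ZO

universe u

theorem t_BASE : S_BASE.{u} := by
  intro X _ C
  refine ⟨BASE.isOpen_Nb, BASE.exists_Nb, fun O h => ?_⟩
  rw [dense_iff_inter_open]
  rintro U hU ⟨f, hf⟩
  obtain ⟨Y, ε, hε, hsub⟩ := BASE.exists_Nb U f hU hf
  obtain ⟨g, hg, hg'⟩ := h f Y ε hε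
  exact ⟨g, hsub hg', hg⟩

end Pool.Agent.Q64.ZO
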