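import Mathlib

/-!
# Project ZO (helper64): MP_55f1f5_an, zero-one law for nonexpansive maps with bounded invariant sets

Results: (B) the law holds for `C = X`, every real Banach space `X`: the set `F(X)` is meager or
contains a dense open set. (A) For closed convex `C` in any Banach space: if some
`C ∩ closedBall q R` is covered by finitely many balls of radius `< R` with centres in `C`, then
`F(C)` contains a dense open set.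
-/

open Filter Topology Set Metric
open scoped NNReal

namespace Pool.Agent.Q64.ZO

universe u

/-- the nonexpansive self-maps of `C`, with the topology of pointwise convergence -/
abbrev NE {X : Type u} [NormedAddCommGroup X] (C : Set X) := {f : C → C // LipschitzWith 1 f}

/-- the maps which have a nonempty closed convex bounded invariant set -/
def FF {X : Type u} [NormedAddCommGroup X] [NormedSpace ℝ X] (C : Set X) : Set (NE C) :=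
  {f | ∃ K : Set X, K.Nonempty ∧ K ⊆ C ∧ IsClosed K ∧ Convex ℝ K ∧ Bornology.IsBounded K ∧
    ∀ x : C, (x : X) ∈ K → (f.1 x : X) ∈ K}

/-- the orbit of `x0` is bounded by `M` -/
def EE {X : Type u} [NormedAddCommGroup X] (C : Set X) (x0 : C) (M : ℝ) : Set (NE C) :=
  {f | ∀ k : ℕ, ‖((f.1^[k] x0 : C) : X)‖ ≤ M}

/-- basic neighbourhood -/
def Nb {X : Type u} [NormedAddCommGroup X] (C : Set X) (f : NE C) (Y : Finset C) (ε : ℝ) :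
    Set (NE C) := {h | ∀ y ∈ Y, ‖(h.1 y : X) - (f.1 y : X)‖ < ε}

/-- BASE: the sets `Nb` are a basis. (Topology of pointwise convergence; `dist` on `C` is the norm of
the difference.) The third part: if every `Nb` meets `O` then `O` is dense. -/
def S_BASE : Prop := ∀ (X : Type u) [NormedAddCommGroup X] (C : Set X),
  (∀ (f : NE C) (Y : Finset C) (ε : ℝ), IsOpen (Nb C f Y ε)) ∧
  (∀ (O : Set (NE C)) (f : NE C), IsOpen O → f ∈ O → ∃ (Y : Finset C) (ε : ℝ), 0 < ε ∧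
    Nb C f Y ε ⊆ O) ∧
  (∀ O : Set (NE C), (∀ (f : NE C) (Y : Finset C) (ε : ℝ), 0 < ε → ∃ g ∈ O, g ∈ Nb C f Y ε) →
    Dense O)

/-- ORB: `f ∈ FF C` iff the orbit of `x0` is bounded. Proof. `K` invariant, `y ∈ K`:
`‖f^k x0 - f^k y‖ ≤ ‖x0 - y‖`. Conversely, if `‖f^k x0‖ ≤ M` take
`K = {y ∈ C | limsup_k ‖f^k x0 - y‖ ≤ 2 M}`, i.e.
`{y ∈ C | ∀ ε > 0, ∀ᶠ k, ‖f^k x0 - y‖ ≤ 2 M + ε}`: closed, convex, bounded, contains `x0`,
and `‖f^(k+1) x0 - f y‖ ≤ ‖f^k x0 - y‖`. -/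
def S_ORB : Prop := ∀ (X : Type u) [NormedAddCommGroup X] [NormedSpace ℝ X] (C : Set X),
  IsClosed C → Convex ℝ C → ∀ (x0 : C) (f : NE C), f ∈ FF C ↔ ∃ M : ℝ, f ∈ EE C x0 M

/-- MG (from S_ORB): Proof. `EE C x0 M` is closed (`f ↦ f^k x0` is continuous for pointwise
convergence of nonexpansive maps, induction on `k`: `‖h (h^k x0) - f (f^k x0)‖ ≤ ‖h^k x0 - f^k x0‖ +
‖h (f^k x0) - f (f^k x0)‖`), `FF C = ⋃ n : ℕ, EE C x0 n`. If all the interiors are empty, `FF C` is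
meager. -/
def S_MG : Prop := ∀ (X : Type u) [NormedAddCommGroup X] [NormedSpace ℝ X] (C : Set X),
  IsClosed C → Convex ℝ C → ∀ x0 : C, (∀ M : ℝ, interior (EE C x0 M) = ∅) → IsMeagre (FF C)

/-- FIX: the strict contractions are dense; they have a fixed point. Proof. `f' x = (1-s) f x + s x0`
for a small `s > 0`, `k = 1 - s`, Banach's fixed point theorem (`C` is complete). -/
def S_FIX : Prop := ∀ (X : Type u) [NormedAddCommGroup X] [NormedSpace ℝ X] [CompleteSpace X]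
  (C : Set X), IsClosed C → Convex ℝ C → C.Nonempty → ∀ (f : NE C) (Y : Finset C) (ε : ℝ), 0 < ε →
  ∃ (g : NE C) (k : ℝ≥0) (p : C), g ∈ Nb C f Y ε ∧ k < 1 ∧ LipschitzWith k g.1 ∧ g.1 p = p

/-- radial soft threshold (centre `p`) -/
noncomputable def rad {X : Type u} [NormedAddCommGroup X] [NormedSpace ℝ X] (p : X) (σ : ℝ)
    (x : X) : X := p + (max 0 (1 - σ / ‖x - p‖)) • (x - p)

/-- RAD. Proof (`p = 0`). If `‖x‖, ‖y‖ ≥ σ`: `ρx - ρy = a(x)(x-y) + (a(x)-a(y)) y`, `a(x) = 1 - σ/‖x‖`,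
`|a(x)-a(y)| ‖y‖ = σ |‖x‖-‖y‖| / ‖x‖ ≤ (σ/‖x‖) ‖x-y‖`. If `‖y‖ < σ ≤ ‖x‖`: `‖ρx‖ = ‖x‖-σ ≤ ‖x-y‖`. -/
def S_RAD : Prop := ∀ (X : Type u) [NormedAddCommGroup X] [NormedSpace ℝ X] (p : X) (σ : ℝ), 0 < σ →
  LipschitzWith 1 (rad p σ) ∧ (∀ x, ‖rad p σ x - x‖ ≤ σ) ∧ (∀ x, ‖x - p‖ ≤ σ → rad p σ x = p) ∧
  (∀ x, σ ≤ ‖x - p‖ → ‖rad p σ x - p‖ = ‖x - p‖ - σ) ∧
  ∀ C : Set X, Convex ℝ C → p ∈ C → ∀ x ∈ C, rad p σ x ∈ C

/-- CUT. Proof. `a = ‖f 0‖`, `θ(s) = 1` for `s ≤ r0`,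
`θ(s) = max 0 (1 - (1-k) log ((a+s)/(a+r0)))` for `s ≥ r0`, `fc y = θ(‖y‖) f y`. For `s ≥ s'`:
`|θ(s)-θ(s')| (a+s') ≤ (1-k)(s-s')` (as `log x ≤ x - 1`). For `‖y'‖ ≤ ‖y‖`:
`fc y - fc y' = θ(‖y‖)(f y - f y') + (θ(‖y‖)-θ(‖y'‖)) f y'` and `‖f y'‖ ≤ a + ‖y'‖`, so the norm is
`≤ k‖y-y'‖ + (1-k)‖y-y'‖`. Last bound: compare with `y'' = (ρ1/‖y‖) y` (any vector of norm `ρ1` if
`y = 0`), where `fc y'' = 0`. -/
def S_CUT : Prop := ∀ (X : Type u) [NormedAddCommGroup X] [NormedSpace ℝ X] [Nontrivial X]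
  (f : X → X) (k : ℝ≥0) (r0 : ℝ), k < 1 → LipschitzWith k f → 0 < r0 →
  ∃ (fc : X → X) (ρ1 : ℝ), r0 < ρ1 ∧ LipschitzWith 1 fc ∧ (∀ y, ‖y‖ ≤ r0 → fc y = f y) ∧
    (∀ y, ρ1 ≤ ‖y‖ → fc y = 0) ∧ ∀ y, ‖y‖ ≤ ρ1 → ‖fc y‖ ≤ ρ1 - ‖y‖

/-- GL (from S_RAD). `g x = f1 (rad p σ x) + t • fc (t⁻¹ • (x - p))`. Proof. In the closed ball
`B(p,σ)` the first term is `p`; outside it the second term is `0`. Mixed case `x ∈ B`, `x' ∉ B`:
`‖g x - g x'‖ ≤ ‖t fc(..)‖ + ‖f1 (rad x') - f1 p‖ ≤ (tρ1 - ‖x-p‖)⁺ + (‖x'-p‖ - σ) ≤ ‖x - x'‖`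
(use `‖x-p‖ ≤ σ` and `tρ1 ≤ σ`; if `‖x-p‖ ≥ tρ1` the first summand is `0`). -/
def S_GL : Prop := ∀ (X : Type u) [NormedAddCommGroup X] [NormedSpace ℝ X]
  (f1 fc : X → X) (p : X) (σ t ρ1 : ℝ), LipschitzWith 1 f1 → f1 p = p → LipschitzWith 1 fc →
  (∀ y, ρ1 ≤ ‖y‖ → fc y = 0) → (∀ y, ‖y‖ ≤ ρ1 → ‖fc y‖ ≤ ρ1 - ‖y‖) → 0 < ρ1 → 0 < σ → 0 < t →
  t * ρ1 ≤ σ → ∃ g : X → X, LipschitzWith 1 g ∧ (∀ x, ‖g x - f1 x‖ ≤ 2 * σ) ∧
    ∀ y, ‖y‖ ≤ ρ1 → g (p + t • y) = p + t • fc y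

/-- A (from S_BASE, S_FIX, S_RAD). Proof. Let `f`, `Y`, `ε`; by FIX replace `f` by `f1` with
`f1 p = p`. `g x = (1-t) f1 (rad p σ x) + t q` with `σ` and then `t` small; `p' = (1-t) p + t q`,
`z' = (1-t) p + t z` (`z ∈ Z`); `t` so small that `‖p'-p‖, ‖z'-p‖ ≤ σ`: then `g p' = g z' = p'`.
Claim: for `x ∈ C` with `‖x - p'‖` large some `z ∈ Z` has `‖x - z'‖ ≤ ‖x - p'‖ - t d / 2`.
Let `r = ‖x-q‖`, `u = (x-q)/r`, `r' = ‖x-p'‖`, `u' = (x-p')/r'`. `q + R u ∈ C` (if `r ≥ R`), so some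
`z` has `‖R u - (z-q)‖ ≤ R - d`; `‖u-u'‖ ≤ 2‖p'-q‖/r`, so `‖R u' - (z-q)‖ ≤ R - d/2` for large `r`,
and `x - z' = r' u' - t (z-q)` has norm `≤ (r' - tR) + t (R - d/2)`.
Let the claim hold for `‖x-p'‖ ≥ R'`; `K = C ∩ closedBall p' (R' + t d)` is invariant for all `h`
with `‖h p' - p'‖, ‖h z' - p'‖ < t d / 2`: so `g` is in the interior of `FF C`. -/
def S_A : Prop := ∀ (X : Type u) [NormedAddCommGroup X] [NormedSpace ℝ X] [CompleteSpace X]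
  (C : Set X), IsClosed C → Convex ℝ C → ∀ (q : C) (R d : ℝ) (Z : Finset C), 0 < R → 0 < d →
  (∀ x : C, ‖(x : X) - q‖ ≤ R → ∃ z ∈ Z, ‖(x : X) - z‖ ≤ R - d) → Dense (interior (FF C))

/-- B (from S_BASE, S_ORB, S_FIX, S_CUT, S_GL). Proof. Let `interior (EE univ 0 M) ≠ ∅`; by BASE and
FIX it contains `f0`, `k0`-Lipschitz with `k0 < 1`, and `Nb f0 Y0 ε0`. Let `r0 > ‖x‖` for `x ∈ Y0`,
`fc`, `ρ1` from CUT for `f0`. Given `f`, `Y`, `ε`: by FIX replace `f` by `f1` with `f1 p = p`; take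
`g` of GL with `2σ` small, `tρ1 ≤ σ`. If `h` is so near `g` at the points `p + t x`, `x ∈ Y0`, that
`‖h(p + t x) - g(p + t x)‖ < t ε0`, then `h0 y = t⁻¹ (h (p + t y) - p)` is nonexpansive and in
`Nb f0 Y0 ε0`, so the orbit of `0` under `h0` is bounded, and `h^k (p + t y) = p + t h0^k y`: the
orbit of `p` under `h` is bounded and `h ∈ FF` by ORB. So `g` is in the interior of `FF`. -/
def S_B : Prop := ∀ (X : Type u) [NormedAddCommGroup X] [NormedSpace ℝ X] [CompleteSpace X]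
  [Nontrivial X], ∀ M : ℝ, (interior (EE (univ : Set X) ⟨0, mem_univ 0⟩ M)).Nonempty →
  Dense (interior (FF (univ : Set X)))

end Pool.Agent.Q64.ZO
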